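import Pool.Agent.W221.NS.Stm

/-!
# MD-RIESZ: the local potential at all scales
-/

set_option autoImplicit false

open MeasureTheory Set Metric Filter Topology
open scoped ContDiff

namespace Pool.Agent.W215.MD

open H459R3.NS W221.NS

theorem cd_pd {g : V → ℝ} (hg : ContDiff ℝ ∞ g) (j : Fin 3) : ContDiff ℝ ∞ (pd j g) := by
  have h1 : ContDiff ℝ ∞ (fderiv ℝ g) := hg.fderiv_right (m := ∞) (by simp)
  exact h1.clm_apply contDiff_const

theorem diff_of {g : V → ℝ} (hg : ContDiff ℝ ∞ g) : Differentiable ℝ g :=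
  hg.differentiable (by simp)

theorem pd_affine {g : V → ℝ} (hg : Differentiable ℝ g) (c : ℝ) (b : V) (j : Fin 3) :
    pd j (fun x => g (b + c • x)) = fun x => c * pd j g (b + c • x) := by
  funext x
  unfold pd
  have h1 : HasFDerivAt (fun x : V => b + c • x) (c • ContinuousLinearMap.id ℝ V) x := by
    have h2 : HasFDerivAt (fun x : V => c • x) (c • ContinuousLinearMap.id ℝ V) x :=
      (hasFDerivAt_id x).const_smul c
    exact h2.const_add b
  have h3 := (hg (b + c • x)).hasFDerivAt.comp x h1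
  have h4 : fderiv ℝ (fun x => g (b + c • x)) x =
      (fderiv ℝ g (b + c • x)).comp (c • ContinuousLinearMap.id ℝ V) := h3.fderiv
  rw [h4]
  simp

theorem pd_const_mul {g : V → ℝ} (hg : Differentiable ℝ g) (c : ℝ) (j : Fin 3) :
    pd j (fun x => c * g x) = fun x => c * pd j g x := by
  funext x
  unfold pd
  rw [fderiv_const_mul (hg x)]
  simp

theorem pd2_affine {g : V → ℝ} (hg : ContDiff ℝ ∞ g) (c : ℝ) (b : V) (i j : Fin 3) (x : V) :
    pd i (pd j (fun x => g (b + c • x))) x = c * (c * pd i (pd j g) (b + c • x)) := by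
  rw [pd_affine (diff_of hg)]
  have h1 : (fun x => c * pd j g (b + c • x)) =
      fun x => (fun y => c * pd j g y) (b + c • x) := rfl
  have h2 : Differentiable ℝ (fun y => c * pd j g y) := (diff_of (cd_pd hg j)).const_mul c
  rw [h1, pd_affine h2, pd_const_mul (diff_of (cd_pd hg j))]

theorem pd2_congr {f g : V → ℝ} {x : V} (h : f =ᶠ[𝓝 x] g) (i j : Fin 3) :
    pd i (pd j f) x = pd i (pd j g) x := by
  have h1 : pd j f =ᶠ[𝓝 x] pd j g := by
    have h2 : fderiv ℝ f =ᶠ[𝓝 x] fderiv ℝ g := h.fderiv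
    filter_upwards [h2] with y hy
    unfold pd
    rw [hy]
  unfold pd at h1 ⊢
  rw [h1.fderiv_eq]

theorem cov (F : V → ℝ) (a : V) (ρ : ℝ) (hρ : 0 < ρ) :
    ∫ z in ball a ρ, F z = (4 * ρ) ^ 3 * ∫ y in ball (0 : V) (1 / 4), F (a + (4 * ρ) • y) := by
  have h4 : (0 : ℝ) < 4 * ρ := by linarith
  rw [← integral_indicator measurableSet_ball, ← integral_indicator measurableSet_ball]
  set Φ : V → ℝ := (ball a ρ).indicator F with hΦ
  have h1 : ∫ z, Φ z = ∫ z, Φ (a + z) := (integral_add_left_eq_self Φ a).symm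
  have h2 := Measure.integral_comp_smul (volume : Measure V) (fun z => Φ (a + z)) (4 * ρ)
  have h3 : Module.finrank ℝ V = 3 := by simp
  rw [h3] at h2
  have h5 : (fun y => Φ (a + (4 * ρ) • y)) =
      (ball (0 : V) (1 / 4)).indicator (fun y => F (a + (4 * ρ) • y)) := by
    funext y
    have h6 : a + (4 * ρ) • y ∈ ball a ρ ↔ y ∈ ball (0 : V) (1 / 4) := by
      rw [mem_ball, mem_ball, dist_zero_right, dist_eq_norm, add_sub_cancel_left, norm_smul,
        Real.norm_of_nonneg h4.le]
      constructor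
      · intro h
        nlinarith
      · intro h
        nlinarith
    by_cases hy : y ∈ ball (0 : V) (1 / 4)
    · rw [Set.indicator_of_mem hy, hΦ, Set.indicator_of_mem (h6.mpr hy)]
    · rw [Set.indicator_of_notMem hy, hΦ, Set.indicator_of_notMem (fun h => hy (h6.mp h))]
  rw [h5] at h2
  rw [h2, h1, smul_eq_mul, abs_of_pos (by positivity)]
  field_simp

theorem t_RIESZ (h : S_RIESZ0) : S_RIESZ := by
  obtain ⟨C, hC, hR0⟩ := h
  refine ⟨C, hC, ?_⟩
  intro v hv a ρ hρ
  obtain ⟨R, hR⟩ : ∃ R : ℝ, R = 4 * ρ := ⟨_, rfl⟩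
  have hRpos : 0 < R := by rw [hR]; linarith
  have hvi : ∀ i, ContDiff ℝ ∞ (fun x => v x i) := fun i => contDiff_pi.mp hv i
  have haff : ∀ (b : V) (c : ℝ), ContDiff ℝ ∞ (fun y : V => b + c • y) := fun b c =>
    contDiff_const.add (contDiff_const_smul c)
  have hvv : ∀ i j, ContDiff ℝ ∞ (fun x => v x i * v x j) := fun i j => (hvi i).mul (hvi j)
  obtain ⟨f, hf⟩ : ∃ f : Fin 3 → Fin 3 → V → ℝ, f = fun i j y =>
      bmp ((4 : ℝ) • y) * (v (a + R • y) i * v (a + R • y) j) := ⟨_, rfl⟩
  have hbs : ContDiff ℝ ∞ (fun y : V => bmp ((4 : ℝ) • y)) := by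
    have h1 : ContDiff ℝ ∞ (bmp : V → ℝ) := bmp.contDiff
    exact h1.comp (contDiff_const_smul (4 : ℝ))
  have hf1 : ∀ i j, ContDiff ℝ ∞ (f i j) := by
    intro i j
    rw [hf]
    exact hbs.mul ((hvv i j).comp (haff a R))
  have hf2 : ∀ i j, ∀ z ∉ ball (0 : V) (1 / 4), f i j z = 0 := by
    intro i j z hz
    rw [mem_ball, dist_zero_right, not_lt] at hz
    have h1 : bmp ((4 : ℝ) • z) = 0 := by
      apply bmp.zero_of_le_dist
      rw [dist_zero_right, norm_smul]
      change (1 : ℝ) ≤ _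
      rw [Real.norm_of_nonneg (by norm_num)]
      linarith
    rw [hf]
    simp only
    rw [h1, zero_mul]
  obtain ⟨P0, hP0, hlap, hnorm⟩ := hR0 f hf1 hf2
  refine ⟨fun z => P0 (-(R⁻¹ • a) + R⁻¹ • z), hP0.comp (haff _ _), ?_, ?_⟩
  · intro x hx
    set y : V := -(R⁻¹ • a) + R⁻¹ • x with hy
    have hy' : y = R⁻¹ • (x - a) := by
      rw [hy, smul_sub]
      abel
    have hyn : ‖y‖ < 1 / 8 := by
      rw [hy', norm_smul, Real.norm_of_nonneg (by positivity)]
      rw [mem_ball, dist_eq_norm] at hx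
      rw [inv_mul_lt_iff₀ hRpos, hR]
      linarith
    have hxy : a + R • y = x := by
      rw [hy', smul_smul, mul_inv_cancel₀ hRpos.ne', one_smul]
      abel
    have h1 : -lap (fun z => P0 (-(R⁻¹ • a) + R⁻¹ • z)) x = R⁻¹ * (R⁻¹ * (-lap P0 y)) := by
      unfold lap
      simp only [pd2_affine hP0]
      rw [← hy, mul_neg, mul_neg, Finset.mul_sum, Finset.mul_sum]
    have h2 : y ∈ ball (0 : V) (1 / 2) := by
      rw [mem_ball, dist_zero_right]
      linarith
    rw [h1, hlap y h2]
    have h3 : ∀ i j, pd i (pd j (f i j)) y =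
        R * (R * pd i (pd j (fun x => v x i * v x j)) x) := by
      intro i j
      have h4 : f i j =ᶠ[𝓝 y] fun y => (fun x => v x i * v x j) (a + R • y) := by
        have h5 : ball (0 : V) (1 / 8) ∈ 𝓝 y := by
          apply isOpen_ball.mem_nhds
          rw [mem_ball, dist_zero_right]
          exact hyn
        filter_upwards [h5] with w hw
        rw [mem_ball, dist_zero_right] at hw
        have h6 : bmp ((4 : ℝ) • w) = 1 := by
          apply bmp.one_of_mem_closedBall
          rw [mem_closedBall, dist_zero_right, norm_smul]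
          change _ ≤ (1 / 2 : ℝ)
          rw [Real.norm_of_nonneg (by norm_num)]
          linarith
        rw [hf]
        simp only
        rw [h6, one_mul]
      rw [pd2_congr h4, pd2_affine (hvv i j), hxy]
    unfold ddq
    simp only [h3, ← Finset.mul_sum]
    field_simp
  · have e1 := cov (fun z => P0 (-(R⁻¹ • a) + R⁻¹ • z) ^ 2) a ρ hρ
    have e2 : ∀ y : V, -(R⁻¹ • a) + R⁻¹ • (a + (4 * ρ) • y) = y := by
      intro y
      rw [← hR, smul_add, smul_smul, inv_mul_cancel₀ hRpos.ne', one_smul]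
      abel
    simp only [e2] at e1
    rw [e1]
    have e3 := cov (fun z => nsq v z ^ 2) a ρ hρ
    have e3' : L4 a ρ v = (4 * ρ) ^ 3 *
        ∫ y in ball (0 : V) (1 / 4), nsq v (a + (4 * ρ) • y) ^ 2 := e3
    rw [e3']
    have hintc : ∀ (F : V → ℝ) (r : ℝ), Continuous F → IntegrableOn F (ball (0 : V) r) := by
      intro F r hF
      exact (hF.continuousOn.integrableOn_compact (isCompact_closedBall (0 : V) r)).mono_set
        ball_subset_closedBall
    have e4 : ∫ y in ball (0 : V) (1 / 4), P0 y ^ 2 ≤ ∫ y in ball (0 : V) (1 / 2), P0 y ^ 2 := by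
      apply setIntegral_mono_set
      · exact hintc _ _ (hP0.continuous.pow 2)
      · exact Filter.Eventually.of_forall fun y => sq_nonneg _
      · exact (ball_subset_ball (by norm_num)).eventuallyLE
    have e5 : ∑ i, ∑ j, ∫ x in ball (0 : V) (1 / 4), f i j x ^ 2 ≤
        ∫ y in ball (0 : V) (1 / 4), nsq v (a + (4 * ρ) • y) ^ 2 := by
      have hi1 : ∀ i j, IntegrableOn (fun x => f i j x ^ 2) (ball (0 : V) (1 / 4)) :=
        fun i j => hintc _ _ ((hf1 i j).continuous.pow 2)
      have e6 : ∑ i, ∑ j, ∫ x in ball (0 : V) (1 / 4), f i j x ^ 2 =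
          ∫ x in ball (0 : V) (1 / 4), ∑ i, ∑ j, f i j x ^ 2 := by
        rw [integral_finset_sum _ fun i _ => integrable_finset_sum _ fun j _ => hi1 i j]
        refine Finset.sum_congr rfl fun i _ => ?_
        rw [integral_finset_sum _ fun j _ => hi1 i j]
      rw [e6]
      apply setIntegral_mono
      · exact integrable_finset_sum _ fun i _ => integrable_finset_sum _ fun j _ => hi1 i j
      · apply hintc
        have h1 : Continuous (fun y : V => a + (4 * ρ) • y) := (haff a (4 * ρ)).continuous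
        unfold nsq
        refine Continuous.pow ?_ 2
        refine continuous_finset_sum _ fun i _ => ?_
        exact (((hvi i).continuous.comp h1).pow 2)
      · intro x
        simp only
        have hb0 : 0 ≤ bmp ((4 : ℝ) • x) := bmp.nonneg
        have hb1 : bmp ((4 : ℝ) • x) ≤ 1 := bmp.le_one
        have h1 : ∑ i, ∑ j, f i j x ^ 2 =
            bmp ((4 : ℝ) • x) ^ 2 * nsq v (a + (4 * ρ) • x) ^ 2 := by
          rw [hf, ← hR]
          unfold nsq
          rw [pow_two (∑ i, v (a + R • x) i ^ 2), Finset.sum_mul_sum, Finset.mul_sum]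
          refine Finset.sum_congr rfl fun i _ => ?_
          rw [Finset.mul_sum]
          refine Finset.sum_congr rfl fun j _ => ?_
          ring
        rw [h1]
        have h2 : bmp ((4 : ℝ) • x) ^ 2 ≤ 1 := pow_le_one₀ hb0 hb1
        have h3 : 0 ≤ nsq v (a + (4 * ρ) • x) ^ 2 := sq_nonneg _
        nlinarith
    calc (4 * ρ) ^ 3 * ∫ y in ball (0 : V) (1 / 4), P0 y ^ 2
        ≤ (4 * ρ) ^ 3 * (C * ∑ i, ∑ j, ∫ x in ball (0 : V) (1 / 4), f i j x ^ 2) := by
          apply mul_le_mul_of_nonneg_left (e4.trans hnorm) (by positivity)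
      _ ≤ (4 * ρ) ^ 3 * (C * ∫ y in ball (0 : V) (1 / 4), nsq v (a + (4 * ρ) • y) ^ 2) := by
          apply mul_le_mul_of_nonneg_left _ (by positivity)
          exact mul_le_mul_of_nonneg_left e5 hC.le
      _ = _ := by ring

end Pool.Agent.W215.MD
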